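import Mathlib
import Pool.Agent.Lib.MP_5e14a0_co.Final

set_option autoImplicit false

namespace Pool.Agent.Results.MP_5e14a0_co.LargePrimeFactor

/-- Difference sets with `k = (v - 1) / 2` or `k = (v + 1) / 2` in abelian groups of order
`v = q w`, where `q` is a prime that is `3` modulo `4` and `w` is at most about `q ^ 2 / 5` (outside a
thin explicit set of values). If every square modulo `q` (times the identity on the part of
order `w`) is forced to be a multiplier by the order `n` (second alternative of the last hypothesis; it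
is automatic for `w + 5 < 2 q` if `(q - 1) / 2` is prime), then `w` is `1`, `q - 2` or `q + 2`, and
every prime divisor of `n` is a multiplier. -/
theorem result :
    ∀ (q w : ℕ), q.Prime → q % 4 = 3 → 7 ≤ q →
      (w + 5 < 2 * q ∨
        (¬ q ∣ w ∧ 5 * (w - 1) ≤ (q - 2) * (q - 3) ∧
          ∀ u a b : ℕ, 3 ≤ u → (a + b + 1 = u ∨ a + b = u + 1) →
            w + 4 * (a * b) ≠ u ^ 2 * (q + 1) + 1)) →
    ∀ (G : Type) [AddCommGroup G] [Fintype G] [DecidableEq G] (D : Finset G) (lam : ℕ),
      Fintype.card G = q * w →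
      (2 * D.card + 1 = Fintype.card G ∨ 2 * D.card = Fintype.card G + 1) →
      (∀ g : G, g ≠ 0 → ((D ×ˢ D).filter (fun x => x.1 - x.2 = g)).card = lam) →
      ((((q - 1) / 2).Prime ∧ w + 5 < 2 * q) ∨
        (Nat.Coprime ((q - 1) / 2) (Nat.totient w) ∧
          ∀ l : ℕ, l.Prime → l ∣ D.card - lam → (q - 1) / 2 ∣ orderOf (l : ZMod q))) →
      (w = 1 ∨ w + 2 = q ∨ w = q + 2) ∧
        ∀ p : ℕ, p.Prime → p ∣ D.card - lam →
          ∃ g : G, D.image (fun x => p • x) = D.image (fun x => x + g) := by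
  intro q w hq h4 h7 hw G _ _ _ D lam hcard hk hds hcrit
  have : Fact q.Prime := ⟨hq⟩
  rcases hcrit with ⟨hs, hw'⟩ | ⟨hc1, hc2⟩
  · exact Pool.Agent.MultConj.safe q hs h7 w hcard hw' hds hk
  · exact Pool.Agent.MultConj.crit q h4 h7 w hcard hw hds hk hc1 hc2

end Pool.Agent.Results.MP_5e14a0_co.LargePrimeFactor
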