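import Pool.Agent.Lib.MP_5e14a0_um.Quot

/-!
A multiplier theorem for abelian difference sets without any hypothesis on `λ`.
-/

namespace Pool.Agent.Results.MP_5e14a0_co.UniformMultiplier

open AddMonoidAlgebra Pool.Agent.Lib.MP_5e14a0_um

/-- `D` is a difference set in the additive group `G`: every nonzero `g` has exactly `lam`
representations `g = a - b` with `a, b ∈ D`. -/
def IsDiffSet {G : Type} [AddCommGroup G] (D : Finset G) (lam : ℕ) : Prop :=
  ∀ g : G, g ≠ 0 → Set.ncard {z : G × G | z.1 ∈ D ∧ z.2 ∈ D ∧ z.1 - z.2 = g} = lam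

section aux

variable {G : Type} [AddCommGroup G]

private lemma mul_star_sum (D : Finset G) :
    (∑ d ∈ D, single d (1 : ℤ)) * star G (∑ d ∈ D, single d (1 : ℤ))
      = ∑ z ∈ D ×ˢ D, single (z.1 - z.2) (1 : ℤ) := by
  rw [map_sum, Finset.sum_mul_sum, Finset.sum_product]
  apply Finset.sum_congr rfl
  intro a _
  apply Finset.sum_congr rfl
  intro b _
  rw [star_single, single_mul_single, mul_one, sub_eq_add_neg]

omit [AddCommGroup G] in
private lemma coeff_sum_single {ι : Type} [DecidableEq G] (S : Finset ι) (f : ι → G) (g : G) :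
    (∑ z ∈ S, single (f z) (1 : ℤ)).coeff g = ((S.filter (fun z => f z = g)).card : ℤ) := by
  rw [coeff_sum, Finsupp.finsetSum_apply, Finset.card_filter]
  push_cast
  apply Finset.sum_congr rfl
  intro z _
  rw [coeff_single, Finsupp.single_apply]

private lemma diffset_eq [Fintype G] (D : Finset G) (lam n : ℕ) (hD : IsDiffSet D lam)
    (hcard : D.card = lam + n) :
    (∑ d ∈ D, single d (1 : ℤ)) * star G (∑ d ∈ D, single d (1 : ℤ))
      = (n : AddMonoidAlgebra ℤ G) + ((lam : ℤ) : AddMonoidAlgebra ℤ G) * allOne G := by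
  classical
  rw [mul_star_sum]
  ext g
  rw [coeff_sum_single, coeff_add, Finsupp.add_apply, coeff_intCast_mul, coeff_allOne, mul_one,
    coeff_natCast]
  rcases eq_or_ne g 0 with rfl | hg
  · have h1 : ((D ×ˢ D).filter (fun z : G × G => z.1 - z.2 = 0)).card = D.card := by
      have h2 : (D ×ˢ D).filter (fun z : G × G => z.1 - z.2 = 0) = D.image (fun d => (d, d)) := by
        ext ⟨a, b⟩
        simp only [Finset.mem_filter, Finset.mem_product, Finset.mem_image, Prod.mk.injEq]
        constructor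
        · rintro ⟨⟨ha, _⟩, hab⟩
          exact ⟨a, ha, rfl, sub_eq_zero.mp hab⟩
        · rintro ⟨d, hd, rfl, rfl⟩
          exact ⟨⟨hd, hd⟩, sub_self _⟩
      rw [h2, Finset.card_image_of_injective]
      intro a b hab
      exact (Prod.mk.inj hab).1
    rw [h1, hcard]
    simp
    ring
  · have h1 := hD g hg
    have h2 : {z : G × G | z.1 ∈ D ∧ z.2 ∈ D ∧ z.1 - z.2 = g}
        = ((D ×ˢ D).filter (fun z : G × G => z.1 - z.2 = g) : Finset (G × G)) := by
      ext z
      simp [and_assoc]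
    rw [h2, Set.ncard_coe_finset] at h1
    rw [h1]
    simp [hg]

private lemma quot_allOne [Fintype G] (N : AddSubgroup G) [Fintype (G ⧸ N)] :
    ∃ c : ℤ, mapDomainRingHom ℤ (QuotientAddGroup.mk' N) (allOne G)
      = (c : AddMonoidAlgebra ℤ (G ⧸ N)) * allOne (G ⧸ N) := by
  classical
  obtain ⟨Z, hZ⟩ : ∃ Z : AddMonoidAlgebra ℤ (G ⧸ N),
      Z = mapDomainRingHom ℤ (QuotientAddGroup.mk' N) (allOne G) := ⟨_, rfl⟩
  rw [← hZ]
  have h1 : Z = ∑ g : G, single ((g : G) : G ⧸ N) (1 : ℤ) := by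
    rw [hZ, allOne, map_sum]
    apply Finset.sum_congr rfl
    intro g _
    simp
  have h2 : ∀ g0 : G, single ((g0 : G) : G ⧸ N) (1 : ℤ) * Z = Z := by
    intro g0
    rw [h1, Finset.mul_sum]
    simp only [single_mul_single, mul_one]
    exact Equiv.sum_comp (Equiv.addLeft g0) (fun g => single ((g : G) : G ⧸ N) (1 : ℤ))
  refine ⟨Z.coeff 0, ?_⟩
  ext a
  rw [coeff_intCast_mul, coeff_allOne, mul_one]
  obtain ⟨g0, rfl⟩ := QuotientAddGroup.mk_surjective a
  have h3 := congrArg (fun W => W.coeff ((g0 : G) : G ⧸ N)) (h2 g0)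
  simp only [coeff_single_mul_apply, one_mul, neg_add_cancel] at h3
  exact h3.symm

/-- the image of a difference set in a quotient group -/
private lemma image_eq [Fintype G] (D : Finset G) (lam n : ℕ) (hD : IsDiffSet D lam)
    (hcard : D.card = lam + n) (N : AddSubgroup G) [Fintype (G ⧸ N)] :
    ∃ μ : ℤ, (∑ d ∈ D, single ((d : G) : G ⧸ N) (1 : ℤ)) *
        star (G ⧸ N) (∑ d ∈ D, single ((d : G) : G ⧸ N) (1 : ℤ))
      = ((n : ℕ) : AddMonoidAlgebra ℤ (G ⧸ N))
        + (μ : AddMonoidAlgebra ℤ (G ⧸ N)) * allOne (G ⧸ N) := by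
  obtain ⟨c, hc⟩ := quot_allOne N
  refine ⟨(lam : ℤ) * c, ?_⟩
  have hX1 : mapDomainRingHom ℤ (QuotientAddGroup.mk' N) (∑ d ∈ D, single d (1 : ℤ))
      = ∑ d ∈ D, single ((d : G) : G ⧸ N) (1 : ℤ) := by
    rw [map_sum]
    apply Finset.sum_congr rfl
    intro d _
    simp
  have h1 := congrArg (mapDomainRingHom ℤ (QuotientAddGroup.mk' N)) (diffset_eq D lam n hD hcard)
  rw [map_mul, mapHom_star, hX1, map_add, map_mul, hc, map_natCast, map_intCast] at h1
  rw [h1]
  push_cast
  ring

end aux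

/-- For every `m` there is `E` such that the following holds for every difference set `D` of order
`n = m n₁` in a finite abelian group `G`, every subgroup `N` of index prime to `n` and every
subgroup `N'` containing `N`. Let `t` be prime to the index of `N` and congruent, modulo the
exponent of `G / N`, to a power of every prime divisor of `n₁`. If for every prime divisor `q` of
`m` there is a power `q ^ i` such that `t ^ s` and `q ^ i` act in the same way modulo `N'` on all
elements `g` with `E g ∈ N`, then `t ^ s` is a multiplier of `D` modulo `N'`. (With `N' = N`: `t ^ s`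
is a multiplier modulo `N` if `t ^ s` is congruent to a power of every `q` modulo the greatest common
divisor of `E` and the exponent of `G / N`. With `s = 1`: `t` itself is a multiplier modulo the
subgroup of all `g` with `E g ∈ N`.) -/
theorem result : ∀ m : ℕ, 0 < m → ∃ E : ℕ, 0 < E ∧
    ∀ (G : Type) [AddCommGroup G] [Finite G] (D : Finset G) (lam n₁ : ℕ), 0 < n₁ →
      IsDiffSet D lam → D.card = lam + m * n₁ →
    ∀ N N' : AddSubgroup G, N ≤ N' → Nat.Coprime (m * n₁) N.index →
    ∀ t : ℕ, Nat.Coprime t N.index →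
      (∀ p : ℕ, p.Prime → p ∣ n₁ → ∃ j : ℕ, t ≡ p ^ j [MOD AddMonoid.exponent (G ⧸ N)]) →
    ∀ s : ℕ, (∀ q : ℕ, q.Prime → q ∣ m →
        ∃ i : ℕ, ∀ g : G, E • g ∈ N → t ^ s • g - q ^ i • g ∈ N') →
      ∃ h : G, D.val.map (fun d => ((t ^ s • d : G) : G ⧸ N'))
        = D.val.map (fun d => ((d + h : G) : G ⧸ N')) := by
  classical
  intro m hm
  obtain ⟨E, hE, hU⟩ := uniform_map m hm
  refine ⟨E, hE, ?_⟩
  intro G _ _ D lam n₁ hn₁ hD hcard N N' hNN hcop t ht hp s hq
  have := Fintype.ofFinite G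
  have := Fintype.ofFinite (G ⧸ N)
  have := Fintype.ofFinite (G ⧸ N')
  have hind : N.index = Nat.card (G ⧸ N) := rfl
  have hind' : N'.index = Nat.card (G ⧸ N') := rfl
  have hdvd : N'.index ∣ N.index := AddSubgroup.index_dvd_of_le hNN
  have hcop' : Nat.Coprime (m * n₁) N'.index := Nat.Coprime.coprime_dvd_right hdvd hcop
  have ht' : Nat.Coprime t N'.index := Nat.Coprime.coprime_dvd_right hdvd ht
  rw [hind] at hcop ht
  rw [hind'] at hcop' ht'
  obtain ⟨μ, hμ⟩ := image_eq D lam (m * n₁) hD hcard N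
  obtain ⟨μ', hμ'⟩ := image_eq D lam (m * n₁) hD hcard N'
  obtain ⟨X', hX'⟩ : ∃ X' : AddMonoidAlgebra ℤ (G ⧸ N'),
      X' = ∑ d ∈ D, single ((d : G) : G ⧸ N') (1 : ℤ) := ⟨_, rfl⟩
  -- the projection
  have hle : N ≤ (QuotientAddGroup.mk' N').ker := by
    rw [QuotientAddGroup.ker_mk']
    exact hNN
  obtain ⟨π, hπ⟩ : ∃ π : (G ⧸ N) →+ (G ⧸ N'), ∀ g : G, π ((g : G) : G ⧸ N) = ((g : G) : G ⧸ N') :=
    ⟨QuotientAddGroup.lift N (QuotientAddGroup.mk' N') hle, fun g => rfl⟩
  have hmap : mapDomainRingHom ℤ π (∑ d ∈ D, single ((d : G) : G ⧸ N) (1 : ℤ)) = X' := by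
    rw [hX', map_sum]
    apply Finset.sum_congr rfl
    intro d _
    simp [hπ]
  rw [← hX'] at hμ'
  have haug : aug (G ⧸ N') X' ≠ 0 := by
    rw [hX', map_sum]
    simp only [aug_single, Finset.sum_const, nsmul_eq_mul, mul_one]
    have : 0 < D.card := by
      rw [hcard]; positivity
    exact_mod_cast this.ne'
  obtain ⟨g, hg⟩ := hU (G ⧸ N) (G ⧸ N') π _ X' n₁ μ μ' hn₁ hμ hmap hμ' haug hcop hcop' t ht ht'
    (by
      intro p hpp hpn
      obtain ⟨j, hj⟩ := hp p hpp hpn
      exact ⟨j, fun x => smul_congr_of_modEq hj (AddMonoid.exponent_nsmul_eq_zero x)⟩) s (by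
      intro q hqp hqm
      obtain ⟨i, hi⟩ := hq q hqp hqm
      refine ⟨i, fun x hx => ?_⟩
      obtain ⟨g, rfl⟩ := QuotientAddGroup.mk_surjective x
      have h1 : E • g ∈ N := by
        rw [← QuotientAddGroup.eq_zero_iff]
        exact hx
      have h2 := hi g h1
      rw [← QuotientAddGroup.eq_zero_iff] at h2
      rw [hπ, ← sub_eq_zero]
      exact h2)
  obtain ⟨h, rfl⟩ := QuotientAddGroup.mk_surjective g
  refine ⟨h, ?_⟩
  have h1 : psi (G ⧸ N') (t ^ s) X' = ∑ d ∈ D, single ((t ^ s • d : G) : G ⧸ N') (1 : ℤ) := by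
    rw [hX', map_sum]
    apply Finset.sum_congr rfl
    intro d _
    rw [psi_single]
    rfl
  have h2 : single ((h : G) : G ⧸ N') (1 : ℤ) * X'
      = ∑ d ∈ D, single ((d + h : G) : G ⧸ N') (1 : ℤ) := by
    rw [hX', Finset.mul_sum]
    apply Finset.sum_congr rfl
    intro d _
    rw [single_mul_single, mul_one, add_comm]
    rfl
  rw [h1, h2] at hg
  apply Multiset.ext.mpr
  intro a
  have h3 := congrArg (fun W => W.coeff a) hg
  simp only [coeff_sum_single] at h3
  rw [Multiset.count_map, Multiset.count_map]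
  have h4 : ∀ f : G → G ⧸ N', (Multiset.filter (fun b => a = f b) D.val).card
      = (D.filter (fun z => f z = a)).card := by
    intro f
    rw [Finset.card_def, Finset.filter_val]
    congr 1
    apply Multiset.filter_congr
    intro x _
    exact eq_comm
  rw [h4, h4]
  exact_mod_cast h3

end Pool.Agent.Results.MP_5e14a0_co.UniformMultiplier
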